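import Mathlib
import Pool.Agent.H865R3.DerAut5

set_option autoImplicit false

namespace Pool.Agent.Results.MP_c978f4_al.AutIsConjugation

universe u v

/-- Let `F` be a field of characteristic zero and `σ` any infinite set of variables (for instance
`σ = ℕ`). Every automorphism `ψ` of the Lie algebra `Der F[σ]` of all `F`-linear derivations of the
polynomial algebra `F[σ]` is conjugation by an automorphism `φ` of the `F`-algebra `F[σ]`:
`ψ(D) = φ ∘ D ∘ φ⁻¹` for every derivation `D`. -/
theorem result (F : Type u) [Field F] [CharZero F] (σ : Type v) [Infinite σ]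
    (ψ : Derivation F (MvPolynomial σ F) (MvPolynomial σ F) ≃ₗ⁅F⁆
      Derivation F (MvPolynomial σ F) (MvPolynomial σ F)) :
    ∃ φ : MvPolynomial σ F ≃ₐ[F] MvPolynomial σ F,
      ∀ (D : Derivation F (MvPolynomial σ F) (MvPolynomial σ F)) (f : MvPolynomial σ F),
        ψ D f = φ (D (φ.symm f)) :=
  Pool.Agent.H865R3.DerAut.main ψ

end Pool.Agent.Results.MP_c978f4_al.AutIsConjugation
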